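import Pool.Agent.Lib.MP_b7b898_nt.SK.BF

/-! Reduction of purely exponential equations over `F[T]` to one congruence. -/

namespace Pool.Agent.Results.MP_b7b898_nt.FunctionField

theorem result : ∀ (F : Type) [Field F] [Finite F] (k : ℕ) (P a : Fin k → Polynomial F)
    (c : Polynomial F), (∀ i, 0 < (P i).natDegree) →
    (∀ i j, P i = P j ∨ IsCoprime (P i) (P j)) → (∀ i, a i ≠ 0) →
    ((∃ M : Polynomial F, M ≠ 0 ∧ ∀ x : Fin k → ℕ,
        c + ∑ i, a i * P i ^ x i = 0 ↔ M ∣ c + ∑ i, a i * P i ^ x i) ↔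
      {x : Fin k → ℕ | c + ∑ i, a i * P i ^ x i = 0}.Finite) :=
  fun _ _ _ _ _ a c hP hc ha => SkP.bf hP hc a ha c

end Pool.Agent.Results.MP_b7b898_nt.FunctionField
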