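import Mathlib
import Pool.Agent.Lib.MP_b7b898_nt.Generic

/-!
Brenner and Foster's question for generic primes: terms with generic prime bases do not affect
reducibility to a congruence.
-/

namespace Pool.Agent.Results.MP_b7b898_nt.GenericPrimes

open Finset Filter Topology

/-- The equation `∑ ε i * p i ^ x i + c = 0` is reducible to a congruence: for some `M ≥ 1` it has
the same solutions in nonnegative integers as the congruence modulo `M`. -/
def Reducible {k : ℕ} (p : Fin k → ℕ) (ε : Fin k → ℤ) (c : ℤ) : Prop :=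
  ∃ M : ℕ, 1 ≤ M ∧ ∀ x : Fin k → ℕ,
    (∑ i, ε i * (p i : ℤ) ^ x i + c = 0 ↔ ∑ i, ε i * (p i : ℤ) ^ x i + c ≡ 0 [ZMOD (M : ℤ)])

open Classical in
/-- The primes with property `P` have natural density one among all primes. -/
def DensityOne (P : ℕ → Prop) : Prop :=
  Tendsto (fun X : ℕ => (#((range (X + 1)).filter fun q => q.Prime ∧ P q) : ℝ) /
    #((range (X + 1)).filter Nat.Prime)) atTop (𝓝 1)

/-- For almost every prime `q 0`, for almost every prime `q 1`, ..., the tuple `q` is in `S`. -/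
def Generic : (k : ℕ) → ((Fin k → ℕ) → Prop) → Prop
  | 0, S => S Fin.elim0
  | k + 1, S => DensityOne fun q => Generic k fun v => S (Fin.cons q v)

open Pool.Agent.Lib.MP_b7b898_nt.Gen Pool.Agent.Shared.SmoothShift

open Classical in
lemma densityOne_of_le {P Q : ℕ → Prop} (hPQ : ∀ q, P q → Q q)
    (h : ∀ η : ℝ, 0 < η → ∀ᶠ X : ℕ in atTop,
      (#((PR X).filter fun q => ¬ P q) : ℝ) ≤ η * #(PR X)) : DensityOne Q := by
  rw [DensityOne, Metric.tendsto_nhds]
  intro η hη
  filter_upwards [h (η / 2) (by linarith), PR_tendsto.eventually_gt_atTop 0] with X h1 h2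
  have h3 : #((range (X + 1)).filter fun q => q.Prime ∧ Q q) ≤ #(PR X) :=
    card_le_card fun q hq => mem_filter.2 ⟨(mem_filter.1 hq).1, (mem_filter.1 hq).2.1⟩
  have h4 : #(PR X) ≤ #((range (X + 1)).filter fun q => q.Prime ∧ Q q) +
      #((PR X).filter fun q => ¬ P q) := by
    refine le_trans (card_le_card fun q hq => ?_) (card_union_le _ _)
    by_cases hP : P q
    · exact mem_union_left _ (mem_filter.2 ⟨(mem_filter.1 hq).1, (mem_filter.1 hq).2, hPQ q hP⟩)
    · exact mem_union_right _ (mem_filter.2 ⟨hq, hP⟩)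
  have h3' : (#((range (X + 1)).filter fun q => q.Prime ∧ Q q) : ℝ) ≤ #(PR X) := by
    exact_mod_cast h3
  have h4' : (#(PR X) : ℝ) ≤ #((range (X + 1)).filter fun q => q.Prime ∧ Q q) +
      #((PR X).filter fun q => ¬ P q) := by exact_mod_cast h4
  rw [Real.dist_eq, abs_lt, lt_sub_iff_add_lt, sub_lt_iff_lt_add, lt_div_iff₀ h2, div_lt_iff₀ h2]
  constructor <;> nlinarith

lemma DensityOne.mono {P Q : ℕ → Prop} (h : DensityOne P) (hPQ : ∀ q, P q → Q q) :
    DensityOne Q := by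
  classical
  refine tendsto_of_tendsto_of_tendsto_of_le_of_le h tendsto_const_nhds (fun X => ?_) fun X => ?_
  · refine div_le_div_of_nonneg_right (Nat.cast_le.2 (card_le_card fun q hq => ?_)) (by positivity)
    simp only [mem_filter] at hq ⊢
    exact ⟨hq.1, hq.2.1, hPQ q hq.2.2⟩
  · refine div_le_one_of_le₀ (Nat.cast_le.2 (card_le_card fun q hq => ?_)) (by positivity)
    simp only [mem_filter] at hq ⊢
    exact ⟨hq.1, hq.2.1⟩

lemma Generic.mono : ∀ {k : ℕ} {S T : (Fin k → ℕ) → Prop}, Generic k S → (∀ v, S v → T v) →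
    Generic k T
  | 0, _, _, h, hST => hST _ h
  | _ + 1, _, _, h, hST => DensityOne.mono h fun _ hq => Generic.mono hq fun _ hv => hST _ hv

lemma generic_of_forall : ∀ {k : ℕ} {S : (Fin k → ℕ) → Prop}, (∀ v, S v) → Generic k S
  | 0, _, h => h _
  | _ + 1, _, h => densityOne_of_le (P := fun _ => True)
      (fun _ _ => generic_of_forall fun _ => h _) fun η hη => Eventually.of_forall fun X => by
        simp only [not_true_eq_false, filter_false, card_empty, Nat.cast_zero]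
        positivity

/-- two block form of reducibility -/
def R2 {j k : ℕ} (p : Fin j → ℕ) (δ : Fin j → ℤ) (q : Fin k → ℕ) (ε : Fin k → ℤ) (c : ℤ) : Prop :=
  ∃ M : ℕ, 1 ≤ M ∧ ∀ (x : Fin j → ℕ) (y : Fin k → ℕ),
    (M : ℤ) ∣ ∑ i, δ i * (p i : ℤ) ^ x i + ∑ i, ε i * (q i : ℤ) ^ y i + c →
      ∑ i, δ i * (p i : ℤ) ^ x i + ∑ i, ε i * (q i : ℤ) ^ y i + c = 0

lemma generic_R2 (c : ℤ) : ∀ (k j : ℕ) (p : Fin j → ℕ) (δ : Fin j → ℤ) (ε : Fin k → ℤ),
    (∀ i, ε i = 1 ∨ ε i = -1) → (∃ M : ℕ, 1 ≤ M ∧ ∀ x : Fin j → ℕ,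
      (M : ℤ) ∣ ∑ i, δ i * (p i : ℤ) ^ x i + (∑ i, ε i + c) →
        ∑ i, δ i * (p i : ℤ) ^ x i + (∑ i, ε i + c) = 0) →
    Generic k fun q => R2 p δ q ε c := by
  intro k
  induction k with
  | zero =>
    rintro j p δ ε - ⟨M, hM, h⟩
    exact ⟨M, hM, fun x y => by simpa using h x⟩
  | succ k ih =>
    rintro j p δ ε hε ⟨M, hM, h⟩
    have e0 : ∑ i, ε i + c = (∑ i : Fin k, ε i.succ + c) + ε 0 := by
      rw [Fin.sum_univ_succ]; ring
    rw [e0] at h
    refine densityOne_of_le ?_ (generic_step p δ (∑ i : Fin k, ε i.succ + c) (ε 0) (hε 0) M hM h)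
    rintro q ⟨M', hM', h'⟩
    refine (ih (j + 1) (Fin.cons q p) (Fin.cons (ε 0) δ) (fun i => ε i.succ)
      (fun i => hε i.succ) ⟨M', hM', fun x => ?_⟩).mono ?_
    · have := h' (fun i => x i.succ) (x 0)
      simp only [Fin.sum_univ_succ, Fin.cons_zero, Fin.cons_succ]
      rwa [add_comm (ε 0 * _)]
    · rintro v ⟨M'', hM'', h''⟩
      refine ⟨M'', hM'', fun x y => ?_⟩
      have := h'' (Fin.cons (y 0) x) (fun i => y i.succ)
      simp only [Fin.sum_univ_succ, Fin.cons_zero, Fin.cons_succ] at this ⊢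
      rwa [add_comm (ε 0 * _), add_assoc (∑ i, δ i * _)] at this

theorem result {j k : ℕ} (p : Fin j → ℕ) (δ : Fin j → ℤ) (ε : Fin k → ℤ)
    (hε : ∀ i, ε i = 1 ∨ ε i = -1) :
    Generic k fun q =>
      (Reducible (Fin.append p q) (Fin.append δ ε) 0 ↔ Reducible p δ (∑ i, ε i)) := by
  have hback : ∀ q : Fin k → ℕ, Reducible (Fin.append p q) (Fin.append δ ε) 0 →
      Reducible p δ (∑ i, ε i) := by
    rintro q ⟨M, hM, h⟩
    refine ⟨M, hM, fun x => ?_⟩
    simpa [Fin.sum_univ_add] using h (Fin.append x fun _ => 0)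
  by_cases hR : Reducible p δ (∑ i, ε i)
  · obtain ⟨M, hM, h⟩ := id hR
    refine (generic_R2 0 k j p δ ε hε ⟨M, hM, fun x hx => ?_⟩).mono ?_
    · rw [add_zero] at hx ⊢
      exact (h x).2 (Int.modEq_zero_iff_dvd.2 hx)
    · rintro q ⟨M', hM', h'⟩
      refine ⟨fun _ => hR, fun _ => ⟨M', hM', fun x => ⟨fun hx => by rw [hx], fun hx => ?_⟩⟩⟩
      rw [Int.modEq_zero_iff_dvd] at hx
      simp only [Fin.sum_univ_add, Fin.append_left, Fin.append_right] at hx ⊢
      exact h' _ _ hx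
  · exact generic_of_forall fun q => ⟨hback q, fun h => absurd h hR⟩

end Pool.Agent.Results.MP_b7b898_nt.GenericPrimes
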