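import Mathlib
import Pool.Agent.Lib.MP_b7b898_nt.Shape

/-!
Brenner and Foster's question for generic primes, with arbitrary repetitions of the primes.
-/

namespace Pool.Agent.Results.MP_b7b898_nt.GenericShape

open Finset Filter Topology

/-- The equation `∑ ε i * p i ^ x i = 0` is reducible to a congruence: for some `M ≥ 1` it has the
same solutions in nonnegative integers as the congruence modulo `M`. -/
def Reducible {k : ℕ} (p : Fin k → ℕ) (ε : Fin k → ℤ) : Prop :=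
  ∃ M : ℕ, 1 ≤ M ∧ ∀ x : Fin k → ℕ,
    (∑ i, ε i * (p i : ℤ) ^ x i = 0 ↔ ∑ i, ε i * (p i : ℤ) ^ x i ≡ 0 [ZMOD (M : ℤ)])

/-- There is a solution in which the exponents outside the block `0` vanish and in which a nonempty
set of terms inside one block has sum zero. -/
def Degenerate {k s : ℕ} (b : Fin k → Fin (s + 1)) (ε : Fin k → ℤ) (q₀ : ℕ) : Prop :=
  ∃ (x : Fin k → ℕ) (T : Finset (Fin k)), (∀ i, b i ≠ 0 → x i = 0) ∧
    ∑ i, ε i * (q₀ : ℤ) ^ x i = 0 ∧ T.Nonempty ∧ (∀ i ∈ T, ∀ j ∈ T, b i = b j) ∧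
    ∑ i ∈ T, ε i * (q₀ : ℤ) ^ x i = 0

open Classical in
/-- The primes with property `P` have natural density one among all primes. -/
def DensityOne (P : ℕ → Prop) : Prop :=
  Tendsto (fun X : ℕ => (#((range (X + 1)).filter fun q => q.Prime ∧ P q) : ℝ) /
    #((range (X + 1)).filter Nat.Prime)) atTop (𝓝 1)

/-- For almost every prime `q 0`, for almost every prime `q 1`, ..., the tuple `q` is in `S`. -/
def Generic : (s : ℕ) → ((Fin s → ℕ) → Prop) → Prop
  | 0, S => S Fin.elim0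
  | s + 1, S => DensityOne fun q => Generic s fun v => S (Fin.cons q v)

open Pool.Agent.Lib.MP_b7b898_nt.Gen Pool.Agent.Lib.MP_b7b898_nt.Shape
open Pool.Agent.Shared.SmoothShift

open Classical in
lemma densityOne_of_le {P Q : ℕ → Prop} {_ : DecidablePred fun q => ¬ P q} (hPQ : ∀ q, P q → Q q)
    (h : ∀ η : ℝ, 0 < η → ∀ᶠ X : ℕ in atTop,
      (#((PR X).filter fun q => ¬ P q) : ℝ) ≤ η * #(PR X)) : DensityOne Q := by
  rw [DensityOne, Metric.tendsto_nhds]
  intro η hη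
  filter_upwards [h (η / 2) (by linarith), PR_tendsto.eventually_gt_atTop 0] with X h1 h2
  have h3 : #((range (X + 1)).filter fun q => q.Prime ∧ Q q) ≤ #(PR X) :=
    card_le_card fun q hq => mem_filter.2 ⟨(mem_filter.1 hq).1, (mem_filter.1 hq).2.1⟩
  have h4 : #(PR X) ≤ #((range (X + 1)).filter fun q => q.Prime ∧ Q q) +
      #((PR X).filter fun q => ¬ P q) := by
    refine le_trans (card_le_card fun q hq => ?_) (card_union_le _ _)
    by_cases hP : P q
    · exact mem_union_left _ (mem_filter.2 ⟨(mem_filter.1 hq).1, (mem_filter.1 hq).2, hPQ q hP⟩)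
    · exact mem_union_right _ (mem_filter.2 ⟨hq, hP⟩)
  have h3' : (#((range (X + 1)).filter fun q => q.Prime ∧ Q q) : ℝ) ≤ #(PR X) := by
    exact_mod_cast h3
  have h4' : (#(PR X) : ℝ) ≤ #((range (X + 1)).filter fun q => q.Prime ∧ Q q) +
      #((PR X).filter fun q => ¬ P q) := by exact_mod_cast h4
  rw [Real.dist_eq, abs_lt, lt_sub_iff_add_lt, sub_lt_iff_lt_add, lt_div_iff₀ h2, div_lt_iff₀ h2]
  constructor <;> nlinarith

lemma DensityOne.mono {P Q : ℕ → Prop} (h : DensityOne P) (hPQ : ∀ q, P q → Q q) :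
    DensityOne Q := by
  classical
  refine tendsto_of_tendsto_of_tendsto_of_le_of_le h tendsto_const_nhds (fun X => ?_) fun X => ?_
  · refine div_le_div_of_nonneg_right (Nat.cast_le.2 (card_le_card fun q hq => ?_)) (by positivity)
    simp only [mem_filter] at hq ⊢
    exact ⟨hq.1, hq.2.1, hPQ q hq.2.2⟩
  · refine div_le_one_of_le₀ (Nat.cast_le.2 (card_le_card fun q hq => ?_)) (by positivity)
    simp only [mem_filter] at hq ⊢
    exact ⟨hq.1, hq.2.1⟩

lemma Generic.mono : ∀ {s : ℕ} {S T : (Fin s → ℕ) → Prop}, Generic s S → (∀ v, S v → T v) →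
    Generic s T
  | 0, _, _, h, hST => hST _ h
  | _ + 1, _, _, h, hST => DensityOne.mono h fun _ hq => Generic.mono hq fun _ hv => hST _ hv

/-- if `v` holds, every solution of the congruence solves the equation and forces `u` -/
def W {ι : Type} [Fintype ι] (u v : Prop) (p : ι → ℕ) (δ : ι → ℤ) (c : ℤ) : Prop :=
  v → ∃ M : ℕ, 1 ≤ M ∧ ∀ x : ι → ℕ, (M : ℤ) ∣ ∑ i, δ i * (p i : ℤ) ^ x i + c →
    ∑ i, δ i * (p i : ℤ) ^ x i + c = 0 ∧ u

lemma zero_of_dvd {κ : Type} [Fintype κ] {ε : κ → ℤ} (hε : ∀ i, ε i = 1 ∨ ε i = -1)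
    (he : ∀ i j, ε i = ε j) {q : ℕ} (hq : Fintype.card κ < q) {y : κ → ℕ}
    (h : (q : ℤ) ∣ ∑ j, ε j * (q : ℤ) ^ y j - ∑ j, ε j) (i : κ) : y i = 0 := by
  classical
  have h1 : (q : ℤ) ∣ ∑ j with y j ≠ 0, ε j * (q : ℤ) ^ y j :=
    dvd_sum fun j hj => (dvd_pow_self _ (mem_filter.1 hj).2).mul_left _
  have h2 : ∑ j with y j ≠ 0, ε j * (q : ℤ) ^ y j - (∑ j, ε j * (q : ℤ) ^ y j - ∑ j, ε j) =
      ε i * #{j | y j ≠ 0} := by
    rw [card_filter, sum_filter, ← sum_sub_distrib, ← sum_sub_distrib, Nat.cast_sum, mul_sum]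
    refine sum_congr rfl fun j _ => ?_
    by_cases e : y j = 0 <;> simp [e, he j i]
  have h3 := dvd_sub h1 h
  rw [h2] at h3
  have h4 : (q : ℤ) ∣ #{j | y j ≠ 0} := by rcases hε i with e | e <;> simpa [e] using h3
  have h5 := Nat.eq_zero_of_dvd_of_lt (Int.natCast_dvd_natCast.1 h4)
    ((card_le_univ _).trans_lt hq)
  by_contra e
  exact (card_pos.2 ⟨i, mem_filter.2 ⟨mem_univ _, e⟩⟩).ne' h5

lemma step {ι κ : Type} [Fintype ι] [Fintype κ] {u v : Prop} {p : ι → ℕ} {δ : ι → ℤ} {c : ℤ}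
    {ε : κ → ℤ} (hε : ∀ i, ε i = 1 ∨ ε i = -1) (he : u → ∀ i j, ε i = ε j)
    (h : W u v p δ (∑ j, ε j + c)) :
    DensityOne fun q => 2 ≤ q ∧ W u v (Sum.elim p fun _ : κ => q) (Sum.elim δ ε) c := by
  obtain ⟨M0, hM0, h0⟩ : ∃ M : ℕ, 1 ≤ M ∧ (v → ∀ x : ι → ℕ,
      (M : ℤ) ∣ ∑ i, δ i * (p i : ℤ) ^ x i + (∑ j, ε j + c) →
      ∑ i, δ i * (p i : ℤ) ^ x i + (∑ j, ε j + c) = 0 ∧ u) := by
    by_cases hv : v
    · exact (h hv).imp fun M hM => ⟨hM.1, fun _ => hM.2⟩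
    · exact ⟨1, le_rfl, fun h => absurd h hv⟩
  refine densityOne_of_le ?_ (key p δ c hε M0 hM0)
  rintro q ⟨hq, M, hM, h1⟩
  refine ⟨by omega, fun hv => ⟨M0 * M * q, Nat.mul_pos (Nat.mul_pos hM0 hM) (by omega),
    fun x hx => ?_⟩⟩
  simp only [Fintype.sum_sum_type, Sum.elim_inl, Sum.elim_inr] at hx ⊢
  push_cast at hx
  have h2 := h1 _ _ (((dvd_mul_left _ _).mul_right _).trans hx)
  have h3 := dvd_sub (((dvd_mul_right _ _).mul_right _).trans hx) h2
  obtain ⟨h4, hu⟩ := h0 hv (fun i => x (.inl i)) (by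
    rwa [show ∀ a b e : ℤ, a + b + c - (b - e) = a + (e + c) from fun _ _ _ => by ring] at h3)
  have h5 : (q : ℤ) ∣ ∑ j, ε j * (q : ℤ) ^ x (.inr j) - ∑ j, ε j := by
    have h6 := (dvd_mul_left _ _).trans hx
    rwa [show ∑ i, δ i * (p i : ℤ) ^ x (.inl i) + ∑ j, ε j * (q : ℤ) ^ x (.inr j) + c =
      ∑ j, ε j * (q : ℤ) ^ x (.inr j) - ∑ j, ε j by linear_combination h4] at h6
  refine ⟨?_, hu⟩
  simp only [zero_of_dvd hε (he hu) (by omega) h5, pow_zero, mul_one]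
  linear_combination h4

lemma generic_W (u v : Prop) (c : ℤ) : ∀ (s : ℕ) (ι κ : Type) [Fintype ι] [Fintype κ] (p : ι → ℕ)
    (δ : ι → ℤ) (ε : κ → ℤ) (b : κ → Fin s), (∀ i, ε i = 1 ∨ ε i = -1) →
    (u → ∀ i j, b i = b j → ε i = ε j) → W u v p δ (∑ j, ε j + c) →
    Generic s fun q => (∀ i, 2 ≤ q i) ∧ W u v (Sum.elim p fun j => q (b j)) (Sum.elim δ ε) c := by
  intro s
  induction s with
  | zero =>
    intro ι κ _ _ p δ ε b _ _ h
    have : IsEmpty κ := ⟨fun j => (b j).elim0⟩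
    refine ⟨fun i => i.elim0, fun hv => (h hv).imp fun M hM => ⟨hM.1, fun x => ?_⟩⟩
    simpa [Fintype.sum_sum_type] using hM.2 fun i => x (.inl i)
  | succ s ih =>
    intro ι κ _ _ p δ ε b hε he h
    have hs : ∀ f : κ → ℤ, ∑ j, f j =
        ∑ j : {j // b j = 0}, f j + ∑ j : {j // ¬ b j = 0}, f j := fun f =>
      (Fintype.sum_subtype_add_sum_subtype _ f).symm
    rw [hs, add_assoc] at h
    refine (step (κ := {j // b j = 0}) (fun j => hε j)
      (fun hu i j => he hu _ _ (i.2.trans j.2.symm)) h).mono ?_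
    rintro q ⟨hq, h1⟩
    refine (ih _ {j // ¬ b j = 0} _ _ (fun j => ε j) (fun j => (b j).pred j.2) (fun j => hε j)
      (fun hu i j e => he hu _ _ (Fin.pred_inj.1 e)) h1).mono ?_
    rintro w ⟨hw, h2⟩
    refine ⟨fun i => Fin.cases hq hw i, fun hv => (h2 hv).imp fun M hM => ⟨hM.1, fun x => ?_⟩⟩
    have h3 := hM.2 (Sum.elim (Sum.elim (fun i => x (.inl i)) fun j => x (.inr j))
      fun j => x (.inr j))
    have e1 : ∀ j : {j // b j = 0}, (Fin.cons q w : Fin (s + 1) → ℕ) (b j) = q := fun j => by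
      rw [j.2, Fin.cons_zero]
    have e2 : ∀ j : {j // ¬ b j = 0},
        (Fin.cons q w : Fin (s + 1) → ℕ) (b j) = w ((b j).pred j.2) := fun j => by
      conv_lhs => rw [← Fin.succ_pred (b j) j.2, Fin.cons_succ]
    simp only [Fintype.sum_sum_type, Sum.elim_inl, Sum.elim_inr] at h3 ⊢
    rw [hs fun j => ε j * _]
    simp only [e1, e2, ← add_assoc]
    exact h3

theorem result {k s : ℕ} (b : Fin k → Fin (s + 1)) (ε : Fin k → ℤ)
    (hε : ∀ i, ε i = 1 ∨ ε i = -1) (q₀ : ℕ) (hq₀ : q₀.Prime) :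
    Generic s fun q =>
      (Reducible (fun i => (Fin.cons q₀ q : Fin (s + 1) → ℕ) (b i)) ε ↔ ¬ Degenerate b ε q₀) := by
  classical
  have hs : ∀ f : Fin k → ℤ, ∑ j, f j =
      ∑ j : {j // b j = 0}, f j + ∑ j : {j // ¬ b j = 0}, f j := fun f =>
    (Fintype.sum_subtype_add_sum_subtype _ f).symm
  have hext : ∀ x : {j // b j = 0} → ℕ,
      ∑ i : {j // b j = 0}, ε i * (q₀ : ℤ) ^ x i + (∑ j : {j // ¬ b j = 0}, ε j + 0) = 0 →
      ∑ i, ε i * (q₀ : ℤ) ^ (if h : b i = 0 then x ⟨i, h⟩ else 0) = 0 := fun x hx => by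
    rw [hs, ← hx, add_zero]
    congr 1
    · exact sum_congr rfl fun i _ => by rw [dif_pos i.2]
    · exact sum_congr rfl fun i _ => by rw [dif_neg i.2, pow_zero, mul_one]
  refine (generic_W (∀ i j, b i ≠ 0 → b i = b j → ε i = ε j) (¬ Degenerate b ε q₀) 0 s
    {j // b j = 0} {j // ¬ b j = 0} (fun _ => q₀) (fun j => ε j) (fun j => ε j)
    (fun j => (b j).pred j.2) (fun j => hε j)
    (fun hu i j e => hu _ _ i.2 (Fin.pred_inj.1 e)) fun hd => ?_).mono ?_
  · obtain ⟨M, hM, h⟩ := one_prime hq₀.two_le (fun j : {j // b j = 0} => hε j)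
      (∑ j : {j // ¬ b j = 0}, ε j + 0) fun x T hT hx h0 => hd
        ⟨fun i => if h : b i = 0 then x ⟨i, h⟩ else 0, T.map (Function.Embedding.subtype _),
          fun i hi => dif_neg hi, hext x hx, hT.map, by
            simp only [Finset.mem_map, Function.Embedding.subtype_apply]
            rintro _ ⟨i, -, rfl⟩ _ ⟨j, -, rfl⟩
            exact i.2.trans j.2.symm, by
            rw [sum_map, ← h0]
            exact sum_congr rfl fun i _ => congrArg (fun n => ε i * (q₀ : ℤ) ^ n) (dif_pos i.2)⟩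
    refine ⟨M, hM, fun x hx => ⟨h x hx, fun i j hi e => ?_⟩⟩
    by_contra hne
    refine hd ⟨fun i => if h : b i = 0 then x ⟨i, h⟩ else 0, {i, j}, fun i hi => dif_neg hi,
      hext x (h x hx), insert_nonempty _ _, ?_, ?_⟩
    · simp only [mem_insert, mem_singleton]
      rintro _ (rfl | rfl) _ (rfl | rfl) <;> simp only [e]
    · rw [sum_pair fun h => hne (by rw [h])]
      simp only [dif_neg hi, dif_neg (e ▸ hi : ¬ b j = 0), pow_zero, mul_one]
      rcases hε i with a | a <;> rcases hε j with a' | a' <;> omega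
  rintro q ⟨hq, hW⟩
  have e1 : ∀ j, b j = 0 → (Fin.cons q₀ q : Fin (s + 1) → ℕ) (b j) = q₀ := fun j hj => by
    rw [hj, Fin.cons_zero]
  have e2 : ∀ j : {j // ¬ b j = 0},
      (Fin.cons q₀ q : Fin (s + 1) → ℕ) (b j) = q ((b j).pred j.2) := fun j => by
    conv_lhs => rw [← Fin.succ_pred (b j) j.2, Fin.cons_succ]
  constructor
  · rintro ⟨M, hM, h⟩ ⟨x, T, hx, h0, ⟨i, hi⟩, hT, h1⟩
    have e3 : ∀ j, ((Fin.cons q₀ q : Fin (s + 1) → ℕ) (b j) : ℤ) ^ x j = (q₀ : ℤ) ^ x j :=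
      fun j => by
        by_cases hj : b j = 0
        · rw [e1 j hj]
        · rw [hx j hj, pow_zero, pow_zero]
    have h2 := lt_of_red hM (fun y hy => (h y).2 (Int.modEq_zero_iff_dvd.2 hy))
      (x := fun j => if j ∈ T then x j + M else x j) (i := i) ?_
      (Fin.cases (motive := fun n => 2 ≤ (Fin.cons q₀ q : Fin (s + 1) → ℕ) n) hq₀.two_le hq _)
      (hε i)
    · simp [hi] at h2
    rw [← sum_add_sum_compl T] at h0 ⊢
    rw [sum_congr rfl (g := fun j => ε j * (q₀ : ℤ) ^ x j *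
        ((Fin.cons q₀ q : Fin (s + 1) → ℕ) (b i) : ℤ) ^ M) fun j hj => by
      rw [if_pos hj, pow_add, e3, hT j hj i hi, mul_assoc],
      sum_congr (s₁ := Tᶜ) rfl (g := fun j => ε j * (q₀ : ℤ) ^ x j) fun j hj => by
        rw [if_neg (mem_compl.1 hj), e3], ← sum_mul]
    linear_combination h0 + (((Fin.cons q₀ q : Fin (s + 1) → ℕ) (b i) : ℤ) ^ M - 1) * h1
  · intro hd
    obtain ⟨M, hM, h⟩ := hW hd
    refine ⟨M, hM, fun x => ⟨fun e => by rw [e], fun hx => ?_⟩⟩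
    have h3 := h (Sum.elim (fun j => x j) fun j => x j)
    simp only [Fintype.sum_sum_type, Sum.elim_inl, Sum.elim_inr, add_zero] at h3
    rw [Int.modEq_zero_iff_dvd] at hx
    rw [hs, sum_congr rfl (g := fun j : {j // b j = 0} => ε j * (q₀ : ℤ) ^ x j) fun j _ => by
      simp only [e1 j j.2]] at hx ⊢
    simp only [e2] at hx ⊢
    exact (h3 hx).1

end Pool.Agent.Results.MP_b7b898_nt.GenericShape
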