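import Pool.Agent.Lib.MP_b7b898_nt.SK.Tor

/-! The exponential local-global principle in positive characteristic. -/

namespace Pool.Agent.Results.MP_b7b898_nt.SkolemCharP

theorem result : ∀ (A : Type) [CommRing A] [IsDomain A] [Algebra.FiniteType ℤ A] (p : ℕ),
    p.Prime → CharP A p → ∀ (n : ℕ) (Γ : Subgroup (Fin n → Aˣ)), Γ.FG →
    ∀ (V : Set (MvPolynomial (Fin n) A)) (N : ℕ), 0 < N →
    ∃ J : Ideal A, Finite (A ⧸ J) ∧
      ∀ γ ∈ Γ, (∀ f ∈ V, MvPolynomial.eval (fun i => (γ i : A)) f ∈ J) →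
        ∃ η ∈ Γ, ∀ f ∈ V, MvPolynomial.eval (fun i => ((γ * η ^ N) i : A)) f = 0 :=
  fun _ _ _ _ _ hp hA _ _ hΓ V _ hN => SkP.torus hp hA hΓ V hN

end Pool.Agent.Results.MP_b7b898_nt.SkolemCharP
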